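import Pool.Agent.W380.WB.Harm

/-!
# A finitely generated amenable weakly branch group that is not SL
-/

set_option autoImplicit false

namespace Pool.Agent.Results.MP_684c87_al.WeaklyBranchNotSL

/-- `g` is an automorphism of the rooted tree of finite words over `A`: it preserves the length of
words and the relation of being an initial segment. -/
def IsTreeAut {A : Type} (g : Equiv.Perm (List A)) : Prop :=
  (∀ w, (g w).length = w.length) ∧ ∀ v w, v <+: w → g v <+: g w

/-- `G` is a weakly branch group of automorphisms of the rooted tree of finite words over `A`: it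
is transitive on the words of each length, and for every word `v` it has a nontrivial element
fixing every word that does not start with `v`. -/
def IsWeaklyBranch {A : Type} (G : Subgroup (Equiv.Perm (List A))) : Prop :=
  (∀ g ∈ G, IsTreeAut g) ∧
  (∀ v w : List A, v.length = w.length → ∃ g ∈ G, g v = w) ∧
  ∀ v : List A, ∃ g ∈ G, g ≠ 1 ∧ ∀ w : List A, ¬ v <+: w → g w = w

/-- Amenability, by Følner's condition. -/
def IsAmenable (H : Type) [Group H] : Prop :=
  ∀ S : Set H, S.Finite → ∀ ε : ℝ, 0 < ε → ∃ E : Set H, E.Finite ∧ E.Nonempty ∧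
    ∀ g ∈ S, ((symmDiff ((fun x => g * x) '' E) E).ncard : ℝ) ≤ ε * E.ncard

/-- Every bounded `μ`-harmonic function is constant. -/
def IsLiouville {H : Type} [Group H] (μ : H →₀ ℝ) : Prop :=
  ∀ f : H → ℝ, (∃ C : ℝ, ∀ g, |f g| ≤ C) →
    (∀ g, f g = μ.sum fun h c => c * f (g * h)) → ∀ a b, f a = f b

/-- Every finite subset generates a finite subgroup. -/
def IsLocallyFinite {H : Type} [Group H] (N : Subgroup H) : Prop :=
  ∀ S : Set H, S.Finite → S ⊆ N → (Subgroup.closure S : Set H).Finite

open Pool.Agent.W380.WB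

/-- translations -/
def tG (v : V) : G := ⟨T v, T_mem v⟩
/-- the conditional lamp -/
def fG : G := ⟨F 0, F_mem 0⟩
/-- the unconditional lamp -/
def dG : G := ⟨D 0, D_mem 0⟩

theorem tG_inv (v : V) : (tG v)⁻¹ = tG (-v) := Subtype.ext (T_neg v).symm
theorem fG_inv : fG⁻¹ = fG := Subtype.ext (F_inv 0)
theorem dG_inv : dG⁻¹ = dG := Subtype.ext (D_inv 0)

/-- the measure -/
noncomputable def mu : G →₀ ℝ :=
  ∑ p : Fin 3 → Fin 3, Finsupp.single (tG (ofs p)) (wt p / 3) + Finsupp.single fG (1 / 3) +
    Finsupp.single dG (1 / 3)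

theorem mu_sum_eq (φ : G → ℝ) : (mu.sum fun h c => c * φ h) =
    ∑ p : Fin 3 → Fin 3, wt p / 3 * φ (tG (ofs p)) + 1 / 3 * φ fG + 1 / 3 * φ dG := by
  have h0 : ∀ a : G, (0 : ℝ) * φ a = 0 := fun a => zero_mul _
  have h1 : ∀ (a : G) (b c : ℝ), (b + c) * φ a = b * φ a + c * φ a := fun a b c => add_mul _ _ _
  unfold mu
  rw [Finsupp.sum_add_index' h0 h1, Finsupp.sum_add_index' h0 h1,
    ← Finsupp.sum_finsetSum_index h0 h1, Finsupp.sum_single_index (h0 _),
    Finsupp.sum_single_index (h0 _)]
  congr 2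
  refine Finset.sum_congr rfl fun p _ => ?_
  rw [Finsupp.sum_single_index (h0 _)]

theorem single_nonneg (a : G) {c : ℝ} (hc : 0 ≤ c) (g : G) : 0 ≤ (Finsupp.single a c) g := by
  classical
  rw [Finsupp.single_apply]
  split_ifs
  · exact hc
  · exact le_rfl

theorem mu_apply (g : G) : mu g = ∑ p : Fin 3 → Fin 3, (Finsupp.single (tG (ofs p)) (wt p / 3)) g +
    (Finsupp.single fG (1 / 3 : ℝ)) g + (Finsupp.single dG (1 / 3 : ℝ)) g := by
  unfold mu
  rw [Finsupp.add_apply, Finsupp.add_apply, Finsupp.finsetSum_apply]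

theorem wt_nonneg' (p : Fin 3 → Fin 3) : 0 ≤ wt p / 3 := div_nonneg (wt_pos p).le (by norm_num)

theorem mu_nonneg (g : G) : 0 ≤ mu g := by
  rw [mu_apply]
  have h1 := single_nonneg fG (show (0 : ℝ) ≤ 1 / 3 by norm_num) g
  have h2 := single_nonneg dG (show (0 : ℝ) ≤ 1 / 3 by norm_num) g
  have h3 : 0 ≤ ∑ p : Fin 3 → Fin 3, (Finsupp.single (tG (ofs p)) (wt p / 3)) g :=
    Finset.sum_nonneg fun p _ => single_nonneg _ (wt_nonneg' p) g
  linarith

theorem mu_total : (mu.sum fun _ c => c) = 1 := by
  have h := mu_sum_eq fun _ => 1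
  simp only [mul_one] at h
  rw [h, ← Finset.sum_div, wt_sum]
  norm_num

theorem tG_supp (p : Fin 3 → Fin 3) : tG (ofs p) ∈ (mu.support : Set G) := by
  rw [Finset.mem_coe, Finsupp.mem_support_iff, mu_apply]
  have h1 := single_nonneg fG (show (0 : ℝ) ≤ 1 / 3 by norm_num) (tG (ofs p))
  have h2 := single_nonneg dG (show (0 : ℝ) ≤ 1 / 3 by norm_num) (tG (ofs p))
  have h3 := Finset.single_le_sum (s := Finset.univ)
    (f := fun q : Fin 3 → Fin 3 => (Finsupp.single (tG (ofs q)) (wt q / 3)) (tG (ofs p)))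
    (fun q _ => single_nonneg _ (wt_nonneg' q) _) (Finset.mem_univ p)
  simp only [Finsupp.single_eq_same] at h3
  have h4 := wt_pos p
  have : 0 < wt p / 3 := by positivity
  linarith

theorem fG_supp : fG ∈ (mu.support : Set G) := by
  rw [Finset.mem_coe, Finsupp.mem_support_iff, mu_apply, Finsupp.single_eq_same]
  have h2 := single_nonneg dG (show (0 : ℝ) ≤ 1 / 3 by norm_num) fG
  have h3 : 0 ≤ ∑ p : Fin 3 → Fin 3, (Finsupp.single (tG (ofs p)) (wt p / 3)) fG :=
    Finset.sum_nonneg fun p _ => single_nonneg _ (wt_nonneg' p) _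
  have : (0 : ℝ) < 1 / 3 := by norm_num
  linarith

theorem dG_supp : dG ∈ (mu.support : Set G) := by
  rw [Finset.mem_coe, Finsupp.mem_support_iff, mu_apply, Finsupp.single_eq_same]
  have h2 := single_nonneg fG (show (0 : ℝ) ≤ 1 / 3 by norm_num) dG
  have h3 : 0 ≤ ∑ p : Fin 3 → Fin 3, (Finsupp.single (tG (ofs p)) (wt p / 3)) dG :=
    Finset.sum_nonneg fun p _ => single_nonneg _ (wt_nonneg' p) _
  have : (0 : ℝ) < 1 / 3 := by norm_num
  linarith

theorem w1_rev (j : Fin 3) : w1 j.rev = w1 j := by
  fin_cases j <;> simp [w1, Fin.rev]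

/-- reversal of steps -/
def rv : (Fin 3 → Fin 3) ≃ (Fin 3 → Fin 3) where
  toFun p i := (p i).rev
  invFun p i := (p i).rev
  left_inv p := by funext i; simp
  right_inv p := by funext i; simp

theorem ofs_rv (p : Fin 3 → Fin 3) : ofs (rv p) = - ofs p := by
  funext i
  have := (p i).isLt
  simp only [ofs, rv, Equiv.coe_fn_mk, Fin.val_rev, Pi.neg_apply]
  omega

theorem wt_rv (p : Fin 3 → Fin 3) : wt (rv p) = wt p := by
  unfold wt
  exact Finset.prod_congr rfl fun i _ => w1_rev _

theorem single_inv (a : G) (c : ℝ) (g : G) :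
    (Finsupp.single a c) g⁻¹ = (Finsupp.single a⁻¹ c) g := by
  classical
  rw [Finsupp.single_apply, Finsupp.single_apply]
  have : a = g⁻¹ ↔ a⁻¹ = g := by
    constructor
    · rintro rfl; simp
    · rintro rfl; simp
  simp only [this]

theorem mu_symm (g : G) : mu g⁻¹ = mu g := by
  rw [mu_apply, mu_apply]
  simp only [single_inv, tG_inv, fG_inv, dG_inv]
  congr 2
  rw [← Equiv.sum_comp rv]
  refine Finset.sum_congr rfl fun p _ => ?_
  rw [ofs_rv, wt_rv, neg_neg]

theorem mu_gen : Subsemigroup.closure (mu.support : Set G) = ⊤ := by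
  rw [eq_top_iff]
  intro g _
  have hone : (1 : G) ∈ Subsemigroup.closure (mu.support : Set G) := by
    have : (1 : G) = tG (ofs fun _ => 1) := by
      apply Subtype.ext
      change (1 : Equiv.Perm (List X)) = T _
      rw [← T_zero]
      congr 1
    rw [this]
    exact Subsemigroup.subset_closure (tG_supp _)
  have hgen : ∀ y ∈ gensG, y ∈ Subsemigroup.closure (mu.support : Set G) ∧
      y⁻¹ ∈ Subsemigroup.closure (mu.support : Set G) := by
    intro y hy
    have hy' : (y : Equiv.Perm (List X)) ∈ gens := hy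
    rcases hy' with (h | h) | ⟨i, h⟩
    · have : y = fG := Subtype.ext h
      rw [this, fG_inv]
      exact ⟨Subsemigroup.subset_closure fG_supp, Subsemigroup.subset_closure fG_supp⟩
    · have : y = dG := Subtype.ext h
      rw [this, dG_inv]
      exact ⟨Subsemigroup.subset_closure dG_supp, Subsemigroup.subset_closure dG_supp⟩
    · have h1 : y = tG (ofs fun j => if j = i then 2 else 1) := by
        apply Subtype.ext
        rw [← h]
        change T (ee i) = T _
        congr 1
        funext j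
        by_cases hj : j = i
        · subst hj; simp [ee, ofs]
        · simp [ee, ofs, hj]
      rw [h1, tG_inv, ← ofs_rv]
      exact ⟨Subsemigroup.subset_closure (tG_supp _), Subsemigroup.subset_closure (tG_supp _)⟩
  have hg : g ∈ Subgroup.closure gensG := by rw [closure_gensG]; exact Subgroup.mem_top g
  induction hg using Subgroup.closure_induction_right with
  | one => exact hone
  | mul_right x hx y hy ih => exact mul_mem (ih trivial) (hgen y hy).1
  | mul_inv_cancel x hx y hy ih => exact mul_mem (ih trivial) (hgen y hy).2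

/-- the map onto the free abelian group of rank three -/
noncomputable def posHom : G →* Multiplicative (Fin 3 → ℤ) where
  toFun g := Multiplicative.ofAdd (pos g)
  map_one' := by
    rw [Subgroup.coe_one, pos_one]; rfl
  map_mul' g h := by
    rw [Subgroup.coe_mul, pos_mul g.2 h.2]; rfl

theorem ker_locallyFinite : IsLocallyFinite posHom.ker := by
  intro S hS hSN
  have h1 : ∀ g ∈ S, ∃ k, (g : Equiv.Perm (List X)) ∈ K k := by
    intro g hg
    have h2 : pos (g : Equiv.Perm (List X)) = 0 := by
      have := hSN hg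
      exact this
    obtain ⟨k, a, ha, v, h3⟩ := exists_form g.2
    have h4 : pos (g : Equiv.Perm (List X)) = v := by
      apply pos_eq
      intro w
      rw [h3, Equiv.Perm.mul_apply, dg_K ha]; rfl
    rw [h2] at h4
    rw [← h4, T_zero, mul_one] at h3
    exact ⟨k, h3 ▸ ha⟩
  choose! k hk using h1
  obtain ⟨M, hM⟩ : ∃ M, ∀ g ∈ S, k g ≤ M := by
    obtain ⟨M, hM⟩ := (hS.image k).bddAbove
    exact ⟨M, fun g hg => hM ⟨g, hg, rfl⟩⟩
  have h2 : Subgroup.closure S ≤ (K M).comap G.subtype := by
    rw [Subgroup.closure_le]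
    intro g hg
    exact K_mono (hM g hg) (hk g hg)
  have h3 : ((fun g : G => (g : Equiv.Perm (List X))) ⁻¹'
      (K M : Set (Equiv.Perm (List X)))).Finite :=
    (K_finite M).preimage Subtype.val_injective.injOn
  exact h3.subset fun g hg => h2 hg

/-- **There is a finitely generated amenable weakly branch group that is not SL.**  The group is
moreover an extension of a locally finite group by a free abelian group of rank three, and the
measure is symmetric. -/
theorem result : ∃ (A : Type) (_ : Fintype A) (_ : Nontrivial A)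
    (G : Subgroup (Equiv.Perm (List A))),
    IsWeaklyBranch G ∧ Group.FG G ∧ IsAmenable G ∧
    (∃ φ : G →* Multiplicative (Fin 3 → ℤ), Function.Surjective φ ∧ IsLocallyFinite φ.ker) ∧
    ∃ μ : G →₀ ℝ, (∀ g, 0 ≤ μ g) ∧ (μ.sum fun _ c => c) = 1 ∧ (∀ g, μ g⁻¹ = μ g) ∧
      Subsemigroup.closure (μ.support : Set G) = ⊤ ∧ ¬ IsLiouville μ := by
  refine ⟨X, inferInstance, inferInstance, G,
    ⟨fun g hg => isTreeAut_of_mem hg, level_transitive, rist_nontrivial⟩,
    (Group.fg_iff_subgroup_fg G).2 G_fg, G_amenable, ⟨posHom, ?_, ker_locallyFinite⟩,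
    mu, mu_nonneg, mu_total, mu_symm, mu_gen, ?_⟩
  · intro v
    refine ⟨tG (Multiplicative.toAdd v), ?_⟩
    change Multiplicative.ofAdd (pos (T (Multiplicative.toAdd v))) = v
    rw [pos_T]; rfl
  · intro h
    have h1 := h (fun g => hf g) (by
      obtain ⟨C, hC⟩ := hf_bdd
      exact ⟨C, fun g => hC g⟩) (fun g => ?_) 1 dG
    · exact hf_ne h1
    · rw [mu_sum_eq fun x => hf (g * x : G)]
      exact hf_harm g.2

end Pool.Agent.Results.MP_684c87_al.WeaklyBranchNotSL
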